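import Pool.Agent.L7h49.PM.QFinal
import Pool.Agent.L7h12.PM.Cstb
import Pool.Agent.L7h16.PM.Dia
import Pool.Agent.L7h16.PM.Lim
import Pool.Agent.L7h16.PM.Swapb
import Pool.Agent.L7h21.PM.Glueb
import Pool.Agent.L7h29.PM.Liftsb
import Pool.Agent.L7h46.PM.Routeb
import Pool.Agent.L7h46.PM.Hookb
import Pool.Agent.L7h46.PM.Neighb
import Pool.Agent.L7h47.PM.Xingb
import Pool.Agent.L7h53.PM.Busqb
import Pool.Agent.L7h70.PM.Discf
import Pool.Agent.L7h79.PM.Conb
import Pool.Agent.L7h79.PM.Rgb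
import Pool.Agent.L7h79.PM.Spl
import Pool.Agent.L7h93.PM.Finkb

set_option autoImplicit false

/-!
# Kozma's question: the additive error on large discs for graphs without a `K_t` minor

If a connected graph `G` without a `K_t` minor, finite or infinite, of any degrees, is roughly isometric to
the disc of radius `D` with multiplicative constant 1 and additive constant `C ≥ 1`, then
`D ≤ (t + 1)^4 exp (9000000 C²)`. So the additive error of such graphs (for instance of planar graphs, with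
`t = 5`) is at least `√(log D - 4 log (t + 1)) / 3000`.

Authors: helper49 (statement, plan), helper12 (CSTB), helper16 (DIA, LIM, SWAPB), helper21 (GLUEB), helper29
(LIFTSB), helper46 (ROUTEB, HOOKB, NEIGHB), helper47 (XINGB), helper53 (BUSQB), helper70 (DISCF), helper79
(CONB, RG2, SPL), helper93 (FINKB); the files of the first part of the project (InfiniteCompleteMinor)
which they adapted are due to helpers 12, 29, 42, 46, 60, 61, 66, 69, 76, 78, 79, 93.
-/

namespace Pool.Agent.Results.MP_8ede36_co.AdditiveErrorOnDiscs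

open Pool.Agent.L7h49.PM

/-- A connected graph without a `K_t` minor which is mapped to the plane with the additive distortion
`C ≥ 1` and with an image which is `C`-dense in the disc of radius `D` has
`D ≤ (t + 1)^4 exp (9000000 C²)`. -/
theorem result (V : Type) (G : SimpleGraph V) (hG : G.Connected) (t : ℕ) (hK : ¬ HasKMinor G t)
    (f : V → EuclideanSpace ℝ (Fin 2)) (C D : ℝ) (hC : 1 ≤ C)
    (hf : ∀ x y, |‖f x - f y‖ - (G.dist x y : ℝ)| < C)
    (hnet : ∀ z : EuclideanSpace ℝ (Fin 2), ‖z‖ ≤ D → ∃ x, ‖f x - z‖ < C) :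
    D ≤ (t + 1) ^ 4 * Real.exp (9000000 * C ^ 2) := by
  have hQ : S_BUSQB := Pool.Agent.L7h53.PM.s_BUSQB Pool.Agent.L7h16.PM.s_LIM
    (Pool.Agent.L7h70.PM.s_DISCF Pool.Agent.L7h16.PM.s_DIA)
  have hX : S_XINGB := Pool.Agent.L7h47.PM.s_XINGB hQ Pool.Agent.L7h79.PM.s_RG2
  have hR : S_ROUTEB := Pool.Agent.L7h46.PM.s_ROUTEB Pool.Agent.L7h79.PM.s_CONB
    Pool.Agent.L7h21.PM.s_GLUEB
  have hL : S_LIFTSB := Pool.Agent.L7h29.PM.s_LIFTSB hR
  have hCs : S_CSTB := Pool.Agent.L7h12.PM.s_CSTB Pool.Agent.L7h79.PM.s_CONB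
    Pool.Agent.L7h21.PM.s_GLUEB
  have hS : S_SWAPB := Pool.Agent.L7h16.PM.s_SWAPB hX hL hR hCs
  have hH : S_HOOKB := Pool.Agent.L7h46.PM.s_HOOKB Pool.Agent.L7h79.PM.s_CONB hR
    Pool.Agent.L7h79.PM.s_SPL
  have hN : S_NEIGHB := Pool.Agent.L7h46.PM.s_NEIGHB hS hH
  exact quant_final (Pool.Agent.L7h93.PM.s_FINKB Pool.Agent.L7h79.PM.s_CONB hN) V G hG t hK f C D
    hC hf hnet

end Pool.Agent.Results.MP_8ede36_co.AdditiveErrorOnDiscs
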