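import Pool.Agent.L7h49.PM.Def3
import Pool.Agent.L7h12.PM.Cst
import Pool.Agent.L7h16.PM.Dia
import Pool.Agent.L7h16.PM.Lim
import Pool.Agent.L7h29.PM.Allp
import Pool.Agent.L7h29.PM.Glue
import Pool.Agent.L7h29.PM.Lifts
import Pool.Agent.L7h46.PM.Route
import Pool.Agent.L7h60.PM.Neigh
import Pool.Agent.L7h61.PM.Busq
import Pool.Agent.L7h66.PM.Add
import Pool.Agent.L7h66.PM.Swap
import Pool.Agent.L7h69.PM.Xing
import Pool.Agent.L7h76.PM.Hook
import Pool.Agent.L7h78.PM.Disc
import Pool.Agent.L7h79.PM.Conn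
import Pool.Agent.L7h79.PM.Infm
import Pool.Agent.L7h79.PM.Rgb
import Pool.Agent.L7h79.PM.Spl

set_option autoImplicit false

/-!
# Kozma's question: an infinite complete minor

Every connected graph, of bounded or unbounded degree, which is roughly isometric to the Euclidean
plane with multiplicative constant 1 has an infinite complete minor. So no planar graph, no graph of
bounded genus, and no graph without a `K_t` minor for some `t`, nor even one without an infinite complete
minor, is roughly isometric to the plane with multiplicative constant 1.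

Authors: helper49 (statement, plan), helper12 (CST), helper16 (DIA, LIM), helper29 (GLUE, LIFTS, ALLP),
helper46 (ROUTE), helper60 (NEIGH), helper61 (BUSQ), helper66 (SWAP, ADD), helper69 (XING), helper76
(HOOK), helper78 (DISC), helper79 (CON, RG2, SPL, INF); helper34, 56, 73, 88, 89, 93, 99 (other parts of
the project).
-/

namespace Pool.Agent.Results.MP_8ede36_co.InfiniteCompleteMinor

open Pool.Agent.L7h49.PM

/-- A connected graph, of any degrees, which is roughly isometric to the Euclidean plane with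
multiplicative constant `1` has an infinite complete minor. -/
theorem result (V : Type) (G : SimpleGraph V) (hG : G.Connected)
    (f : V → EuclideanSpace ℝ (Fin 2)) (C : ℝ)
    (hf : ∀ x y, |‖f x - f y‖ - (G.dist x y : ℝ)| < C)
    (hnet : ∀ z : EuclideanSpace ℝ (Fin 2), ∃ x, ‖f x - z‖ < C) :
    HasInfMinor G := by
  have hBQ : S_BUSQ := Pool.Agent.L7h61.PM.s_BUSQ Pool.Agent.L7h16.PM.s_LIM
    (Pool.Agent.L7h78.PM.s_DISC Pool.Agent.L7h16.PM.s_DIA)
  have hX : S_XING := Pool.Agent.L7h69.PM.s_XING hBQ Pool.Agent.L7h79.PM.s_RG2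
  have hR : S_ROUTE := Pool.Agent.L7h46.PM.s_ROUTE Pool.Agent.L7h79.PM.s_CON
    Pool.Agent.L7h29.PM.s_GLUE
  have hL : S_LIFTS := Pool.Agent.L7h29.PM.s_LIFTS hR
  have hC : S_CST := Pool.Agent.L7h12.PM.s_CST Pool.Agent.L7h79.PM.s_CON Pool.Agent.L7h29.PM.s_GLUE
  have hS : S_SWAP := Pool.Agent.L7h66.PM.s_SWAP hX hL hR hC
  have hH : S_HOOK := Pool.Agent.L7h76.PM.s_HOOK Pool.Agent.L7h79.PM.s_CON hR
    Pool.Agent.L7h79.PM.s_SPL
  have hN : S_NEIGH := Pool.Agent.L7h60.PM.s_NEIGH hS hH
  have hA : S_ALLP := Pool.Agent.L7h29.PM.s_ALLP hN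
  have hD : S_ADD := Pool.Agent.L7h66.PM.s_ADD Pool.Agent.L7h79.PM.s_CON
  exact Pool.Agent.L7h79.PM.s_INF hD hA V G f (max C 1) ⟨le_max_right _ _, hG,
    fun x y => (hf x y).trans_le (le_max_left _ _),
    fun p => (hnet p).imp fun x hx => hx.trans_le (le_max_left _ _)⟩

end Pool.Agent.Results.MP_8ede36_co.InfiniteCompleteMinor
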