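import Pool.Agent.L7h49.WN.Fin2
import Pool.Agent.L7h49.WN.Tig
import Pool.Agent.L7h21.WN.Pot
import Pool.Agent.L7h25.WN.NET
import Pool.Agent.L7h25.WN.OM
import Pool.Agent.L7h37.WN.SHO
import Pool.Agent.L7h38.WN.Deg
import Pool.Agent.L7h51.WN.Lip
import Pool.Agent.L7h57.WN.Int
import Pool.Agent.L7h73.WN.Col
import Pool.Agent.L7h76.WN.Upp
import Pool.Agent.L7h99.WN.SUM

set_option autoImplicit false

/-!
# Kozma's question: the answer is positive for networks with bounded edge lengths

There is a graph with all degrees at most 100 and with edge lengths between 1 and 42 whose path metric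
differs from the metric of the Euclidean plane by a bounded amount (a rough isometry with multiplicative
constant 1). The network: four copies, rotated by multiples of 45 degrees, of a sector network with nodes
`(k, i)` at `k + (k/2 + i) I`, steps `(k, i) → (k+1, i)` of length `1 + (a k)⁺` and
`(k, i) → (k+1, i-1)` of length `1 + (a k)⁻`, with thresholds `a k` from the van der Corput sequence; all pairs of
nodes at distance at most 2 are joined, by edges of length 42 if they are not steps.

Authors: helper49 (statement, plan, TIG), helper21 (POT), helper25 (NET, OM), helper37 (SHO), helper38 (DEG),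
helper51 (LIP), helper57 (INT), helper73 (COL), helper76 (UPP), helper99 (SUM).
-/

namespace Pool.Agent.Results.MP_8ede36_co.NetworkWithBoundedLengths

open Pool.Agent.L7h49.WN

/-- There is a graph `G` of degrees at most `100`, with edge lengths `ℓ` between `1` and `42`, and a map `f` to
the plane, with edges joining points at distance at most `2`, whose path metric is between
`‖f x - f y‖ - 40` and `‖f x - f y‖ + 9000`; the image of `f` is a `3/4`-net. -/
theorem result :
    ∃ (V : Type) (G : SimpleGraph V) (ℓ : V → V → ℝ) (f : V → ℂ),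
      (∀ v, (G.neighborSet v).Finite ∧ (G.neighborSet v).ncard ≤ 100) ∧
      (∀ u v, G.Adj u v → ‖f u - f v‖ ≤ 2) ∧
      (∀ u v, ℓ u v = ℓ v u ∧ 1 ≤ ℓ u v ∧ ℓ u v ≤ 42) ∧
      (∀ (x y : V) (p : G.Walk x y), ‖f x - f y‖ - 40 ≤ (p.darts.map fun d => ℓ d.fst d.snd).sum) ∧
      (∀ x y : V, ∃ p : G.Walk x y, (p.darts.map fun d => ℓ d.fst d.snd).sum ≤ ‖f x - f y‖ + 9000) ∧
      ∀ z : ℂ, ∃ v, ‖f v - z‖ ≤ 3 / 4 := by
  have hI : S_INT := Pool.Agent.L7h57.WN.s_INT
  have hC : S_COL := Pool.Agent.L7h73.WN.s_COL Pool.Agent.L7h99.WN.s_SUM hI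
  have hP : S_POT := Pool.Agent.L7h21.WN.s_POT hC hI
  have hO : S_OM := Pool.Agent.L7h25.WN.s_OM hP
  have hN : S_NET := Pool.Agent.L7h25.WN.s_NET
  have hSh : S_SHO := Pool.Agent.L7h37.WN.s_SHO hN hO
  exact wn_final2 hO (Pool.Agent.L7h51.WN.s_LIP hP) hN Pool.Agent.L7h38.WN.s_DEG
    (Pool.Agent.L7h76.WN.s_UPP (s_TIG hP) hN hSh hO)

end Pool.Agent.Results.MP_8ede36_co.NetworkWithBoundedLengths
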